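import Pool.Agent.U222.CR.Pub

/-!
# The Tate conjecture for smooth varieties: definitions
-/

set_option autoImplicit false

open Finset TensorProduct

namespace Pool.Agent.U222.SM

open Pool.Agent.U222.SL Pool.Agent.U222.CR.Pub

section modules

variable {K A B M Γ : Type} [Field K] [Group Γ] [AddCommGroup A] [Module K A] [AddCommGroup B]
  [Module K B] [AddCommGroup M] [Module K M]

/-- The elements `γ` of the Galois group multiply `x` by `χ (γ) ^ w`: the class `x` is invariant after a
Tate twist by `w`. -/
def IsTwisted (χ : Γ →* Kˣ) (ρ : Γ →* Module.End K A) (w : ℕ) (x : A) : Prop :=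
  ∀ γ, ρ γ x = ((χ γ : Kˣ) : K) ^ w • x

/-- The subspace of the elements of degree `n` of a tensor product. -/
def crossSpan (k : A ⊗[K] B ≃ₗ[K] M) (g : ℕ → Submodule K A) (g' : ℕ → Submodule K B) (n : ℕ) :
    Submodule K M :=
  Submodule.span K {z | ∃ a b x y, a + b = n ∧ x ∈ g a ∧ y ∈ g' b ∧ cross k x y = z}

/-- `W` is the part without invariants of the cohomology `A` of a model of the cyclic covering `C`: it is
stable under the Galois group, it is the common kernel of the linear forms `l k` (dual to the classes `e k`
of cycles), the Frobenius `σ` acts on it by `Φ`, and `Φ` and the generator `g` of the covering group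
satisfy the trace formula, without invariants of `g` (`IsCyclicCovering`); the eigenvalues of `Φ` are pure
of weight `n`. -/
structure IsCoveringPart [Algebra K ℂ] {κ : Type} [Field κ] [Fintype κ] (C : Covering κ)
    (ρ : Γ →* Module.End K A) (σ : Γ) {I : Type} [Fintype I] (e : I → A) (l : I → A →ₗ[K] K)
    (W : Submodule K A) (Φ g : Module.End K W) : Prop where
  stable : ∀ γ, ∀ x ∈ W, ρ γ x ∈ W
  frobenius : ∀ x : W, ρ σ x = Φ x
  coordinate : ∀ k, ∀ x ∈ W, l k x = 0
  mem : ∀ x, remainder e l x ∈ W
  covering : IsCoveringAction C Φ g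

end modules

section theory

variable (K : Type) {𝒱 : Type} (H : 𝒱 → Type) (Γ : Type) [Field K] [Mul 𝒱] [Group Γ]
  [∀ X, AddCommGroup (H X)] [∀ X, Module K (H X)]

/-- The `ℓ`-adic cohomology `H X` of smooth varieties `X` over a field `k`, in general not proper, for a
class of varieties closed under products: the action of the Galois group `Γ` of `k`, the cohomology
`gr X d` of degree `d`, the isomorphisms of Künneth and the classes of the algebraic cycles of codimension
`i` on `X`. -/
structure Cohomology : Type where
  act : ∀ X, Γ →* Module.End K (H X)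
  gr : ∀ X, ℕ → Submodule K (H X)
  kunneth : ∀ X Y, H X ⊗[K] H Y ≃ₗ[K] H (X * Y)
  cycles : ∀ X, ℕ → Set (H X)

variable {K H Γ}

/-- The invariants of the Galois group in the cohomology of degree `2 w` with a Tate twist by `w`. -/
def Cohomology.tateClasses (T : Cohomology K H Γ) (χ : Γ →* Kˣ) (X : 𝒱) (w : ℕ) : Set (H X) :=
  {x | x ∈ T.gr X (2 * w) ∧ IsTwisted χ (T.act X) w x}

/-- The isomorphisms of Künneth are compatible with the action of the Galois group and with the degrees,
the classes of cycles are of degree `2 i` and invariant after a Tate twist, and products of cycles are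
cycles. -/
structure Cohomology.IsStandard (T : Cohomology K H Γ) (χ : Γ →* Kˣ) : Prop where
  cross : ∀ X Y γ (x : H X) (y : H Y), T.act (X * Y) γ (cross (T.kunneth X Y) x y) =
    cross (T.kunneth X Y) (T.act X γ x) (T.act Y γ y)
  degree : ∀ X Y n, T.gr (X * Y) n = crossSpan (T.kunneth X Y) (T.gr X) (T.gr Y) n
  cycle : ∀ X i, T.cycles X i ⊆ T.tateClasses χ X i
  mul : ∀ X Y i j, ∀ x ∈ T.cycles X i, ∀ y ∈ T.cycles Y j,
    Pool.Agent.U222.CR.Pub.cross (T.kunneth X Y) x y ∈ T.cycles (X * Y) (i + j)

/-- The linear form `l` on `H X` (`X` proper) is given by the intersection with an algebraic cycle of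
dimension `d`: it is zero in the degrees different from `2 d`, and the slant products (push-forwards to
`Y` of products with the cycle) map classes of cycles on `X × Y` to classes of cycles on `Y`. -/
def Cohomology.IsAlgebraic (T : Cohomology K H Γ) {X : 𝒱} (l : H X →ₗ[K] K) (d : ℕ) : Prop :=
  (∀ n, n ≠ 2 * d → ∀ x ∈ T.gr X n, l x = 0) ∧
    ∀ Y w, d ≤ w → ∀ z ∈ T.cycles (X * Y) w, slant (T.kunneth X Y) l z ∈ T.cycles Y (w - d)

/-- The variety `X` is a smooth projective model of a cyclic covering whose reduction at a closed point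
with the Frobenius `σ` is the covering `C`: the cohomology of `X` is the direct sum of the lines of the
classes `e k` of algebraic cycles of codimension `codim k` (the codimension zero occurs) and of a part `W`
without invariants of the covering group; the coordinates `l k` of `e k` are given by algebraic cycles. -/
structure Cohomology.IsModel (T : Cohomology K H Γ) [Algebra K ℂ] {κ : Type} [Field κ] [Fintype κ]
    (C : Covering κ) (σ : Γ) (X : 𝒱) {I : Type} [Fintype I] [DecidableEq I] (codim : I → ℕ)
    (e : I → H X) (l : I → H X →ₗ[K] K) : Prop where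
  unit : ∃ k, codim k = 0
  cycle : ∀ k, e k ∈ T.cycles X (codim k)
  algebraic : ∀ k, T.IsAlgebraic (l k) (codim k)
  dual : IsDual e l
  part : ∃ (W : Submodule K (H X)) (Φ g : Module.End K W),
    IsCoveringPart C (T.act X) σ e l W Φ g

/-- The products `e_{k_1} × (e_{k_2} × (⋯ × z))` of classes of cycles on the `X_i` and of a class `z` on
`U` in `P (w - codim)`, where `codim` is the sum of the codimensions of the `e_{k_i}`. -/
def Cohomology.products (T : Cohomology K H Γ) {ι : Type} {X : ι → 𝒱} {U : 𝒱} {I : ι → Type}
    (codim : ∀ i, I i → ℕ) (e : ∀ i, I i → H (X i)) (P : ℕ → Set (H U)) :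
    ∀ (L : List ι), ℕ → Set (H (productOf X U L))
  | [], w => P w
  | i :: L, w => {x | ∃ (k : I i) (y : H (productOf X U L)), codim i k ≤ w ∧
      y ∈ T.products codim e P L (w - codim i k) ∧
      cross (T.kunneth (X i) (productOf X U L)) (e i k) y = x}

/-- The Tate conjecture `T^w (X)`: the invariants in the cohomology of degree `2 w` twisted by `w` are
linear combinations of classes of algebraic cycles. -/
def Cohomology.Tate (T : Cohomology K H Γ) (χ : Γ →* Kˣ) (X : 𝒱) (w : ℕ) : Prop :=
  ∀ x ∈ T.tateClasses χ X w, x ∈ Submodule.span K (T.cycles X w)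

/-- The variety `U` has the cohomology of a connected smooth curve, proper or not: it is in degrees at
most `2`, and spanned by the class of `U` in degree `0` and by classes of points in degree `2`. -/
def Cohomology.IsCurve (T : Cohomology K H Γ) (U : 𝒱) : Prop :=
  (∀ x ∈ T.gr U 0, x ∈ Submodule.span K (T.cycles U 0)) ∧
    (∀ x ∈ T.gr U 2, x ∈ Submodule.span K (T.cycles U 1)) ∧ ∀ d, 2 < d → ∀ x ∈ T.gr U d, x = 0

/-- The variety `U` has the cohomology of a connected smooth surface, proper or not: it is in degrees at
most `4`, and spanned by the class of `U` in degree `0` and by classes of points in degree `4`. -/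
def Cohomology.IsSurface (T : Cohomology K H Γ) (U : 𝒱) : Prop :=
  (∀ x ∈ T.gr U 0, x ∈ Submodule.span K (T.cycles U 0)) ∧
    (∀ x ∈ T.gr U 4, x ∈ Submodule.span K (T.cycles U 2)) ∧ ∀ d, 4 < d → ∀ x ∈ T.gr U d, x = 0

/-- The conclusions for the product `V × U` of `U` and of the `X_i` with the indices in the list `L`. -/
structure Cohomology.Conclusions (T : Cohomology K H Γ) (χ : Γ →* Kˣ) {ι : Type} (X : ι → 𝒱) (U : 𝒱)
    {I : ι → Type} (codim : ∀ i, I i → ℕ) (e : ∀ i, I i → H (X i)) (L : List ι) : Prop where
  curve : T.IsCurve U → ∀ w, T.Tate χ (productOf X U L) w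
  surface : T.IsSurface U → ((∀ w, T.Tate χ (productOf X U L) w) ↔ T.Tate χ U 1)
  tate : ∀ n, (∀ w ≤ n, T.Tate χ (productOf X U L) w) ↔ ∀ w ≤ n, T.Tate χ U w
  classes : ∀ w, T.tateClasses χ (productOf X U L) w =
    (Submodule.span K (T.products codim e (T.tateClasses χ U) L w) : Set _)

end theory

end Pool.Agent.U222.SM
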