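import Pool.Agent.U222.CR.Conv
import Pool.Agent.U222.SM.Defs

/-!
# The Tate conjecture for products with smooth varieties
-/

set_option autoImplicit false
set_option linter.unusedSectionVars false

open Finset TensorProduct

namespace Pool.Agent.U222.SM

open Pool.Agent.U222.SL Pool.Agent.U222.CR.Pub Pool.Agent.N876.FL

variable {K 𝒱 Γ : Type} {H : 𝒱 → Type} [Field K] [Mul 𝒱] [Group Γ] [∀ X, AddCommGroup (H X)]
  [∀ X, Module K (H X)]

section basic

variable {T : Cohomology K H Γ} {χ : Γ →* Kˣ}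

theorem slant_cross {X Y : 𝒱} (k : H X ⊗[K] H Y ≃ₗ[K] H (X * Y)) (l : H X →ₗ[K] K) (x : H X)
    (y : H Y) : slant k l (cross k x y) = l x • y := by
  unfold slant cross contraction
  simp

theorem slant_zero {X Y : 𝒱} (k : H X ⊗[K] H Y ≃ₗ[K] H (X * Y)) (l : H X →ₗ[K] K) :
    slant k l 0 = 0 := by
  unfold slant contraction
  simp

theorem slant_add {X Y : 𝒱} (k : H X ⊗[K] H Y ≃ₗ[K] H (X * Y)) (l : H X →ₗ[K] K)
    (z z' : H (X * Y)) : slant k l (z + z') = slant k l z + slant k l z' := by
  unfold slant contraction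
  simp

theorem slant_smul {X Y : 𝒱} (k : H X ⊗[K] H Y ≃ₗ[K] H (X * Y)) (l : H X →ₗ[K] K) (a : K)
    (z : H (X * Y)) : slant k l (a • z) = a • slant k l z := by
  unfold slant contraction
  simp

theorem cross_zero {X Y : 𝒱} (k : H X ⊗[K] H Y ≃ₗ[K] H (X * Y)) (x : H X) :
    cross k x (0 : H Y) = 0 := by
  unfold cross
  rw [TensorProduct.tmul_zero, map_zero]

theorem cross_add {X Y : 𝒱} (k : H X ⊗[K] H Y ≃ₗ[K] H (X * Y)) (x : H X) (y y' : H Y) :
    cross k x (y + y') = cross k x y + cross k x y' := by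
  unfold cross
  rw [TensorProduct.tmul_add, map_add]

theorem cross_smul {X Y : 𝒱} (k : H X ⊗[K] H Y ≃ₗ[K] H (X * Y)) (x : H X) (a : K) (y : H Y) :
    cross k x (a • y) = a • cross k x y := by
  unfold cross
  rw [TensorProduct.tmul_smul, map_smul]

theorem smul_cross {X Y : 𝒱} (k : H X ⊗[K] H Y ≃ₗ[K] H (X * Y)) (x : H X) (a : K) (y : H Y) :
    cross k (a • x) y = a • cross k x y := by
  unfold cross
  rw [← TensorProduct.smul_tmul', map_smul]

/-- additive induction on a product -/
theorem cross_ind {X Y : 𝒱} (k : H X ⊗[K] H Y ≃ₗ[K] H (X * Y)) {P : H (X * Y) → Prop} (h0 : P 0)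
    (ha : ∀ x y, P x → P y → P (x + y)) (hc : ∀ x y, P (cross k x y)) (u : H (X * Y)) : P u := by
  obtain ⟨t, rfl⟩ := k.surjective u
  induction t using TensorProduct.induction_on with
  | zero => rw [map_zero]; exact h0
  | add x y hx hy => rw [map_add]; exact ha _ _ hx hy
  | tmul x y => exact hc x y

/-- the slant products and the degrees -/
theorem slant_deg (hT : T.IsStandard χ) {X Y : 𝒱} {l : H X →ₗ[K] K} {d : ℕ}
    (hl : ∀ n, n ≠ 2 * d → ∀ x ∈ T.gr X n, l x = 0) {n : ℕ} {z : H (X * Y)}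
    (hz : z ∈ T.gr (X * Y) n) :
    (2 * d ≤ n → slant (T.kunneth X Y) l z ∈ T.gr Y (n - 2 * d)) ∧
      (n < 2 * d → slant (T.kunneth X Y) l z = 0) := by
  rw [hT.degree] at hz
  unfold crossSpan at hz
  induction hz using Submodule.span_induction with
  | mem z hz =>
    obtain ⟨a, b, x, y, hab, hx, hy, rfl⟩ := hz
    rw [slant_cross]
    by_cases ha : a = 2 * d
    · refine ⟨fun _ => Submodule.smul_mem _ _ ?_, fun h => absurd h (by omega)⟩
      have : n - 2 * d = b := by omega
      rw [this]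
      exact hy
    · rw [hl a ha x hx, zero_smul]
      exact ⟨fun _ => Submodule.zero_mem _, fun _ => rfl⟩
  | zero =>
    rw [slant_zero]
    exact ⟨fun _ => Submodule.zero_mem _, fun _ => rfl⟩
  | add z z' _ _ h h' =>
    rw [slant_add]
    exact ⟨fun hn => Submodule.add_mem _ (h.1 hn) (h'.1 hn), fun hn => by
      rw [h.2 hn, h'.2 hn, add_zero]⟩
  | smul a z _ h =>
    rw [slant_smul]
    exact ⟨fun hn => Submodule.smul_mem _ _ (h.1 hn), fun hn => by rw [h.2 hn, smul_zero]⟩

theorem cross_deg (hT : T.IsStandard χ) {X Y : 𝒱} {a b : ℕ} {x : H X} {y : H Y}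
    (hx : x ∈ T.gr X a) (hy : y ∈ T.gr Y b) : cross (T.kunneth X Y) x y ∈ T.gr (X * Y) (a + b) := by
  rw [hT.degree]
  exact Submodule.subset_span ⟨a, b, x, y, rfl, hx, hy, rfl⟩

theorem cross_tate (hT : T.IsStandard χ) {X Y : 𝒱} {a b : ℕ} {x : H X} {y : H Y}
    (hx : x ∈ T.tateClasses χ X a) (hy : y ∈ T.tateClasses χ Y b) :
    cross (T.kunneth X Y) x y ∈ T.tateClasses χ (X * Y) (a + b) := by
  refine ⟨?_, fun γ => ?_⟩
  · have h := cross_deg hT hx.1 hy.1
    rwa [← mul_add] at h
  · rw [hT.cross, hx.2 γ, hy.2 γ, smul_cross, cross_smul, smul_smul, pow_add]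

end basic

section model

variable {T : Cohomology K H Γ} {χ : Γ →* Kˣ} [Algebra K ℂ] {κ : Type} [Field κ] [Fintype κ]
  {C : Covering κ} {σ : Γ} {X : 𝒱} {I : Type} [Fintype I] [DecidableEq I] {codim : I → ℕ}
  {e : I → H X} {l : I → H X →ₗ[K] K}

theorem l_act (hT : T.IsStandard χ) (h : T.IsModel C σ X codim e l) (k : I) (γ : Γ) (x : H X) :
    l k (T.act X γ x) = ((χ γ : Kˣ) : K) ^ codim k * l k x := by
  obtain ⟨W, Φ, g, hW⟩ := h.part
  have h1 : x = ∑ k, l k x • e k + remainder e l x := by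
    unfold remainder
    abel
  have h2 : T.act X γ x = ∑ k, (l k x * ((χ γ : Kˣ) : K) ^ codim k) • e k +
      T.act X γ (remainder e l x) := by
    conv_lhs => rw [h1]
    rw [map_add, map_sum]
    congr 1
    refine sum_congr rfl fun k _ => ?_
    rw [map_smul, (hT.cycle X _ (h.cycle k)).2 γ, smul_smul]
  rw [h2, map_add, hW.coordinate k _ (hW.stable γ _ (hW.mem x)), add_zero, map_sum,
    sum_eq_single k]
  · rw [map_smul, h.dual k k, if_pos rfl, smul_eq_mul, mul_one, mul_comm]
  · intro k' _ hk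
    rw [map_smul, h.dual k k', if_neg (Ne.symm hk), smul_zero]
  · intro hk
    exact absurd (mem_univ k) hk

theorem slant_act (hT : T.IsStandard χ) (h : T.IsModel C σ X codim e l) (k : I) (γ : Γ) (Y : 𝒱)
    (z : H (X * Y)) : slant (T.kunneth X Y) (l k) (T.act (X * Y) γ z) =
      ((χ γ : Kˣ) : K) ^ codim k • T.act Y γ (slant (T.kunneth X Y) (l k) z) := by
  induction z using cross_ind (T.kunneth X Y) with
  | h0 => simp only [map_zero, slant_zero, smul_zero]
  | ha x y hx hy => simp only [map_add, slant_add, smul_add, hx, hy]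
  | hc x y =>
    rw [hT.cross, slant_cross, slant_cross, l_act hT h, map_smul, smul_smul]

/-- the slant product of a Tate class -/
theorem slant_tate (hT : T.IsStandard χ) (h : T.IsModel C σ X codim e l) (k : I) {Y : 𝒱} {w : ℕ}
    {z : H (X * Y)} (hz : z ∈ T.tateClasses χ (X * Y) w) :
    (codim k ≤ w → slant (T.kunneth X Y) (l k) z ∈ T.tateClasses χ Y (w - codim k)) ∧
      (w < codim k → slant (T.kunneth X Y) (l k) z = 0) := by
  have h1 := slant_deg hT (h.algebraic k).1 hz.1
  refine ⟨fun hk => ⟨?_, fun γ => ?_⟩, fun hk => h1.2 (by omega)⟩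
  · have h2 := h1.1 (by omega)
    have h3 : 2 * w - 2 * codim k = 2 * (w - codim k) := by omega
    rwa [h3] at h2
  · have h2 := slant_act hT h k γ Y z
    rw [hz.2 γ, slant_smul] at h2
    have h3 : ((χ γ : Kˣ) : K) ^ codim k ≠ 0 := pow_ne_zero _ (Units.ne_zero _)
    refine smul_right_injective _ h3 ?_
    show ((χ γ : Kˣ) : K) ^ codim k • _ = ((χ γ : Kˣ) : K) ^ codim k • _
    rw [← h2, smul_smul, ← pow_add, Nat.add_sub_cancel' hk]

omit [Algebra K ℂ] [Fintype I] [DecidableEq I] in
/-- slant products of linear combinations of cycles -/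
theorem slant_span {Y : 𝒱} {k : I} {A : Set (H (X * Y))} {B : Set (H Y)}
    (h : ∀ z ∈ A, slant (T.kunneth X Y) (l k) z ∈ B) {z : H (X * Y)}
    (hz : z ∈ Submodule.span K A) : slant (T.kunneth X Y) (l k) z ∈ Submodule.span K B := by
  induction hz using Submodule.span_induction with
  | mem z hz => exact Submodule.subset_span (h z hz)
  | zero => rw [slant_zero]; exact Submodule.zero_mem _
  | add z z' _ _ h h' => rw [slant_add]; exact Submodule.add_mem _ h h'
  | smul a z _ h => rw [slant_smul]; exact Submodule.smul_mem _ _ h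

omit [Algebra K ℂ] in
theorem cross_span {Y : 𝒱} {x : H X} {A : Set (H Y)} {B : Set (H (X * Y))}
    (h : ∀ y ∈ A, cross (T.kunneth X Y) x y ∈ B) {y : H Y} (hy : y ∈ Submodule.span K A) :
    cross (T.kunneth X Y) x y ∈ Submodule.span K B := by
  induction hy using Submodule.span_induction with
  | mem z hz => exact Submodule.subset_span (h z hz)
  | zero => rw [cross_zero]; exact Submodule.zero_mem _
  | add z z' _ _ h h' => rw [cross_add]; exact Submodule.add_mem _ h h'
  | smul a z _ h => rw [cross_smul]; exact Submodule.smul_mem _ _ h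

end model

section frobenius

variable [∀ X, FiniteDimensional K (H X)] {T : Cohomology K H Γ} {χ : Γ →* Kˣ} [Algebra K ℂ]
  {κ : Type} [Field κ] [Fintype κ] {σ : Γ}

/-- the theory with the Frobenius at one closed point -/
def toCr (T : Cohomology K H Γ) (σ : Γ) : Pool.Agent.U222.CR.Crystals K 𝒱 where
  H := H
  F X := T.act X σ
  Fr X := T.act X σ
  kunneth := T.kunneth
  cycles := T.cycles

theorem cr_cry (hT : T.IsStandard χ) {q : ℕ} (hσ : ((χ σ : Kˣ) : K) = (q : K)) :
    (toCr T σ).IsCrystalline (RingEquiv.refl K) q 1 where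
  add X x y := map_add _ _ _
  smul X a x := map_smul _ _ _
  iterate X x := rfl
  cross X Y x y := hT.cross X Y σ x y
  cycle X i z hz := by
    have h := (hT.cycle X i hz).2 σ
    rw [hσ] at h
    exact h
  mul := hT.mul

theorem cr_model (hT : T.IsStandard χ) {C : Covering κ} {X : 𝒱} {I : Type} [Fintype I]
    [DecidableEq I] {codim : I → ℕ} {e : I → H X} {l : I → H X →ₗ[K] K}
    (h : T.IsModel C σ X codim e l) : (toCr T σ).IsModel C X codim e l where
  nonempty := ⟨h.unit.choose⟩
  cycle := h.cycle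
  slant k Y w z hz := ⟨fun hk => (h.algebraic k).2 Y w hk z hz, fun hk =>
    (slant_deg hT (h.algebraic k).1 (hT.cycle _ _ hz).1).2 (by omega)⟩
  dual := h.dual
  rest := by
    obtain ⟨W, Φ, g, h1⟩ := h.part
    exact ⟨W, Φ, g, fun x => ⟨h1.stable σ x.1 x.2, h1.frobenius x⟩, h1.coordinate, h1.mem,
      h1.covering.1, h1.covering.2⟩

/-- the components of a Tate class on a product -/
theorem comp (c : ℕ) [Fact c.Prime] [CharP κ c] (f : ℕ)
    (hf : Fintype.card κ = c ^ f) (hT : T.IsStandard χ)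
    (hσ : ((χ σ : Kˣ) : K) = (Fintype.card κ : K)) {ι : Type} [Fintype ι] [DecidableEq ι]
    {C : ι → Covering κ} {X : ι → 𝒱} {U : 𝒱} {I : ι → Type} [∀ i, Fintype (I i)]
    [∀ i, DecidableEq (I i)] {codim : ∀ i, I i → ℕ} {e : ∀ i, I i → H (X i)}
    {l : ∀ i, I i → H (X i) →ₗ[K] K}
    (hX : ∀ i, T.IsModel (C i) σ (X i) (codim i) (e i) (l i)) {lam b N : ℕ}
    (hC : IsAdmissibleFamily C c f N lam b)
    (hU : IsAdmissibleFactor c (Fintype.card κ) N lam b (complexified (T.act U σ)))
    {i : ι} {L : List ι} (hL : (i :: L).Nodup) {w : ℕ} {x : H (X i * productOf X U L)}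
    (hx : x ∈ T.tateClasses χ (X i * productOf X U L) w) :
    x = ∑ k, cross (T.kunneth (X i) (productOf X U L)) (e i k)
      (slant (T.kunneth (X i) (productOf X U L)) (l i k) x) := by
  have hf0 : 0 < f := by
    rcases Nat.eq_zero_or_pos f with h | h
    · rw [h, pow_zero] at hf
      have := Fintype.one_lt_card (α := κ)
      omega
    · exact h
  have hq1 : 1 < Fintype.card κ := Fintype.one_lt_card
  obtain ⟨hC, hN⟩ := hC
  obtain ⟨hU, hfew⟩ := hU
  have hN' : 0 < N ∧ (∀ i, (C i).N ∣ N) ∧ IsSeparated C c f N lam b := by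
    rcases hN with h | ⟨rfl, h1, h2, h3⟩
    · exact h
    · exact ⟨prod_pos fun i _ => (h1 i).1.pos, fun i => dvd_prod_of_mem _ (mem_univ i),
        isSeparated_of_large hf0 h1 h2 h3⟩
  have hfew' : HasFewSlopes c (Fintype.card κ) N lam b (complexified (T.act U σ)) := by
    rcases hfew with h | h
    · exact h
    · exact hasFewSlopes_of hq1 hU h
  choose W Φ g h1 h2 h3 h4 h5 using fun i => (cr_model hT (hX i)).rest
  have hcov : ∀ i, Pool.Agent.N876.TC.IsCov (C i).N (C i).l (C i).a (C i).z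
      (complexified (Φ i)) (complexified (g i)) :=
    fun i => ⟨(h4 i).commute, (h4 i).order, (h4 i).invariants,
      fun L _ _ _ t => (h4 i).lefschetz L t⟩
  have hres : Pool.Agent.N876.FL.NoResF (Fintype.card κ : ℂ)
      (fun i => {α | (complexified (Φ i)).HasEigenvalue α})
      {β | (complexified ((toCr T σ).Fr U)).HasEigenvalue β} := by
    refine nores_fewF hN'.1 (fun i => (hC i).two_le) hN'.2.1 κ hf (fun i => (hC i).root)
      (fun i => (C i).l) (fun i => (C i).a) (fun i => (hC i).coprime) (RingHom.id ℂ) hcov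
      ((isSeparated_iff hf0 hN'.1 hN'.2.1).1 hN'.2.2) h5 ?_
    rintro _ ⟨β, hβ, rfl⟩
    obtain ⟨h6, d, h7⟩ := hU β hβ
    exact ⟨h6, d, h7, hfew' β hβ d h7⟩
  have hD : Pool.Agent.U222.CR.Data (toCr T σ) (RingEquiv.refl K) (Fintype.card κ) 1
      (Fintype.card κ) C X U codim e l W Φ :=
    ⟨cr_cry hT hσ, (pow_one _).symm, hq1, rfl, fun i => cr_model hT (hX i),
      fun i => ⟨h1 i, h2 i, h3 i⟩, h5, fun β hβ => (hU β hβ).2, hres⟩
  have h6 := (Pool.Agent.U222.CR.comp_eig hD hL (m := 1) one_pos (w := w) (x := x) (by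
    rw [pow_one, one_mul]
    have h7 := hx.2 σ
    rw [hσ] at h7
    exact h7)).1
  exact h6

end frobenius

section main

variable [∀ X, FiniteDimensional K (H X)] {T : Cohomology K H Γ} {χ : Γ →* Kˣ}
  {ι : Type} {X : ι → 𝒱} {U : 𝒱} {I : ι → Type} [∀ i, Fintype (I i)]
  {codim : ∀ i, I i → ℕ} {e : ∀ i, I i → H (X i)} {l : ∀ i, I i → H (X i) →ₗ[K] K}

theorem tateClasses_span {V : 𝒱} {w : ℕ} {A : Set (H V)} (hA : A ⊆ T.tateClasses χ V w) {x : H V}
    (hx : x ∈ Submodule.span K A) : x ∈ T.tateClasses χ V w := by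
  induction hx using Submodule.span_induction with
  | mem z hz => exact hA hz
  | zero => exact ⟨Submodule.zero_mem _, fun γ => by rw [map_zero, smul_zero]⟩
  | add z z' _ _ h h' => exact ⟨Submodule.add_mem _ h.1 h'.1, fun γ => by
      rw [map_add, h.2 γ, h'.2 γ, smul_add]⟩
  | smul a z _ h => exact ⟨Submodule.smul_mem _ _ h.1, fun γ => by
      rw [map_smul, h.2 γ, smul_comm]⟩

/-- what is needed of the factors -/
structure Good (T : Cohomology K H Γ) (χ : Γ →* Kˣ) (X : ι → 𝒱) (U : 𝒱)
    (codim : ∀ i, I i → ℕ) (e : ∀ i, I i → H (X i)) (l : ∀ i, I i → H (X i) →ₗ[K] K) : Prop where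
  std : T.IsStandard χ
  unit : ∀ i, ∃ k, codim i k = 0
  cyc : ∀ i k, e i k ∈ T.cycles (X i) (codim i k)
  one : ∀ i k, l i k (e i k) = 1
  alg : ∀ i k (Y : 𝒱) (w : ℕ), codim i k ≤ w → ∀ z ∈ T.cycles (X i * Y) w,
    slant (T.kunneth (X i) Y) (l i k) z ∈ T.cycles Y (w - codim i k)
  st : ∀ i k (Y : 𝒱) (w : ℕ) (z : H (X i * Y)), z ∈ T.tateClasses χ (X i * Y) w →
    (codim i k ≤ w → slant (T.kunneth (X i) Y) (l i k) z ∈ T.tateClasses χ Y (w - codim i k)) ∧
      (w < codim i k → slant (T.kunneth (X i) Y) (l i k) z = 0)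
  comp : ∀ (i : ι) (L : List ι), (i :: L).Nodup → ∀ (w : ℕ) (x : H (X i * productOf X U L)),
    x ∈ T.tateClasses χ (X i * productOf X U L) w →
      x = ∑ k, cross (T.kunneth (X i) (productOf X U L)) (e i k)
        (slant (T.kunneth (X i) (productOf X U L)) (l i k) x)

theorem tate_iff (h : Good T χ X U codim e l) (n : ℕ) : ∀ L : List ι, L.Nodup →
    ((∀ w ≤ n, T.Tate χ (productOf X U L) w) ↔ ∀ w ≤ n, T.Tate χ U w) := by
  intro L
  induction L with
  | nil => intro _; exact Iff.rfl
  | cons i L ih =>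
    intro hL
    rw [← ih (List.nodup_cons.1 hL).2]
    constructor
    · intro hT w hw b hb
      obtain ⟨k, hk⟩ := h.unit i
      have h1 : cross (T.kunneth (X i) (productOf X U L)) (e i k) b ∈
          T.tateClasses χ (X i * productOf X U L) (codim i k + w) :=
        cross_tate h.std (h.std.cycle _ _ (h.cyc i k)) hb
      rw [hk, zero_add] at h1
      have h2 := hT w hw _ h1
      have h3 := slant_span (T := T) (l := l i) (k := k) (B := T.cycles (productOf X U L) w)
        (fun z hz => by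
          have h4 := h.alg i k (productOf X U L) w (by omega) z hz
          rwa [hk, Nat.sub_zero] at h4) h2
      rwa [slant_cross, h.one, one_smul] at h3
    · intro hT w hw x hx
      rw [h.comp i L hL w x hx]
      refine Submodule.sum_mem _ fun k _ => ?_
      rcases Nat.lt_or_ge w (codim i k) with hk | hk
      · rw [(h.st i k _ w x hx).2 hk, cross_zero]
        exact Submodule.zero_mem _
      · have h3 := hT (w - codim i k) (by omega) _ ((h.st i k _ w x hx).1 hk)
        refine cross_span (fun y hy => ?_) h3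
        have h4 := h.std.mul _ _ _ _ _ (h.cyc i k) y hy
        rwa [Nat.add_sub_cancel' hk] at h4

theorem classes (h : Good T χ X U codim e l) : ∀ L : List ι, L.Nodup → ∀ w : ℕ,
    T.tateClasses χ (productOf X U L) w =
      (Submodule.span K (T.products codim e (T.tateClasses χ U) L w) : Set _) := by
  intro L
  induction L with
  | nil =>
    intro _ w
    ext x
    exact ⟨fun hx => Submodule.subset_span hx, fun hx => tateClasses_span (fun y hy => hy) hx⟩
  | cons i L ih =>
    intro hL w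
    obtain ⟨hiL, hL'⟩ := List.nodup_cons.1 hL
    ext x
    constructor
    · intro hx
      have hx' : x ∈ T.tateClasses χ (X i * productOf X U L) w := hx
      have h1 := h.comp i L hL w x hx'
      rw [h1]
      refine Submodule.sum_mem _ fun k _ => ?_
      rcases Nat.lt_or_ge w (codim i k) with hk | hk
      · rw [(h.st i k _ w x hx').2 hk, cross_zero]
        exact Submodule.zero_mem _
      · have h3 := (h.st i k _ w x hx').1 hk
        rw [ih hL' (w - codim i k)] at h3
        exact cross_span (B := T.products codim e (T.tateClasses χ U) (i :: L) w)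
          (fun y hy => ⟨k, y, hk, hy, rfl⟩) h3
    · intro hx
      refine tateClasses_span ?_ hx
      rintro _ ⟨k, y, hk, hy, rfl⟩
      have hy' : y ∈ T.tateClasses χ (productOf X U L) (w - codim i k) := by
        rw [ih hL' (w - codim i k)]
        exact Submodule.subset_span hy
      have h4 := cross_tate h.std (h.std.cycle _ _ (h.cyc i k)) hy'
      rw [Nat.add_sub_cancel' hk] at h4
      exact h4

theorem tate_zero {V : 𝒱} {w d : ℕ} (hd : ∀ n, d < n → ∀ x ∈ T.gr V n, x = 0) (hw : d < 2 * w) :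
    T.Tate χ V w := by
  intro x hx
  rw [hd _ hw x hx.1]
  exact Submodule.zero_mem _

/-- the main theorem -/
theorem conclusions (h : Good T χ X U codim e l) (L : List ι) (hL : L.Nodup) :
    T.Conclusions χ X U codim e L where
  tate n := tate_iff h n L hL
  classes w := classes h L hL w
  curve hU w := by
    refine (tate_iff h w L hL).2 (fun w' _ => ?_) w le_rfl
    obtain ⟨h0, h2, h3⟩ := hU
    rcases Nat.lt_or_ge w' 2 with hw | hw
    · interval_cases w'
      · exact fun x hx => h0 x hx.1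
      · exact fun x hx => h2 x hx.1
    · exact tate_zero h3 (by omega)
  surface hU := by
    obtain ⟨h0, h4, h5⟩ := hU
    constructor
    · intro hT
      exact (tate_iff h 1 L hL).1 (fun w _ => hT w) 1 le_rfl
    · intro hT w
      refine (tate_iff h w L hL).2 (fun w' _ => ?_) w le_rfl
      rcases Nat.lt_or_ge w' 3 with hw | hw
      · interval_cases w'
        · exact fun x hx => h0 x hx.1
        · exact hT
        · exact fun x hx => h4 x hx.1
      · exact tate_zero h5 (by omega)

end main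

section final

variable [∀ X, FiniteDimensional K (H X)]

theorem main (c : ℕ) [Fact c.Prime] (κ : Type) [Field κ] [Fintype κ] [CharP κ c] (f : ℕ)
    (hf : Fintype.card κ = c ^ f) [Algebra K ℂ] (T : Cohomology K H Γ) (χ : Γ →* Kˣ)
    (hT : T.IsStandard χ) (σ : Γ) (hσ : ((χ σ : Kˣ) : K) = (Fintype.card κ : K))
    {ι : Type} [Fintype ι] [DecidableEq ι] (C : ι → Covering κ)
    (X : ι → 𝒱) {I : ι → Type} [∀ i, Fintype (I i)] [∀ i, DecidableEq (I i)]
    (codim : ∀ i, I i → ℕ) (e : ∀ i, I i → H (X i)) (l : ∀ i, I i → H (X i) →ₗ[K] K)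
    (hX : ∀ i, T.IsModel (C i) σ (X i) (codim i) (e i) (l i)) (lam b N : ℕ)
    (hC : IsAdmissibleFamily C c f N lam b) (U : 𝒱)
    (hU : IsAdmissibleFactor c (Fintype.card κ) N lam b (complexified (T.act U σ)))
    (L : List ι) (hL : L.Nodup) : T.Conclusions χ X U codim e L :=
  conclusions (l := l) ⟨hT, fun i => (hX i).unit, fun i => (hX i).cycle, fun i k => by
      rw [(hX i).dual k k, if_pos rfl],
    fun i k Y w hk z hz => ((hX i).algebraic k).2 Y w hk z hz,
    fun i k Y w z hz => slant_tate hT (hX i) k hz,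
    fun i L hL w x hx => comp c f hf hT hσ hX hC hU hL hx⟩ L hL

end final

end Pool.Agent.U222.SM
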